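import Pool.Agent.Lib.MP_2aac2f_an.Main

/-!
# Entropy of the hyperspace map over linear-growth systems (MP_2aac2f_an)

The (one-sided) Sturmian subshift of slope `√2 - 1` has linear order of growth, `o(T) = [n]`, but
the induced map on the hyperspace of nonempty closed subsets has topological entropy zero.
-/

namespace Pool.Agent.Results.MP_2aac2f_an.SturmianZeroEntropy

open Pool.Agent.Lib.MP_2aac2f_an

/-- There are a compact metric space `X` and a continuous map `T : X → X` with `o(T) = [n]` and
`h(T_𝒦) = 0`. -/
theorem result : ∃ (X : Type) (_ : MetricSpace X) (_ : CompactSpace X) (T : X → X)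
    (hT : Continuous T),
    genEntropy T hT = cls linear ∧ Dynamics.coverEntropy (hyperMap T hT) Set.univ = 0 := by
  have hα : Irrational (Real.sqrt 2 - 1) := by
    have := irrational_sqrt_two.sub_natCast 1
    simpa using this
  have h0 : 0 < Real.sqrt 2 - 1 := by
    have h2 : (1 : ℝ) < Real.sqrt 2 := by
      rw [Real.lt_sqrt (by norm_num)]; norm_num
    linarith
  have h1 : Real.sqrt 2 - 1 < 1 := by
    have h2 : Real.sqrt 2 < 2 := by
      rw [Real.sqrt_lt' (by norm_num)]; norm_num
    linarith
  exact ⟨Sturm (Real.sqrt 2 - 1), inferInstance, inferInstance, shift _, continuous_shift _,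
    genEntropy_sturm hα h0 h1, entropy_hyper_sturm hα h0 h1⟩

end Pool.Agent.Results.MP_2aac2f_an.SturmianZeroEntropy
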